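import Mathlib

/-!
# Ideal limit points: definitions
-/

set_option autoImplicit false

namespace Pool.Agent.H729Z.Pi04

open Set Filter Topology

/-- An ideal on the natural numbers: a family of subsets closed under subsets and finite unions,
containing all finite sets and not containing the whole set. -/
structure IsIdeal (I : Set (Set ℕ)) : Prop where
  subset_mem : ∀ A B : Set ℕ, A ⊆ B → B ∈ I → A ∈ I
  union_mem : ∀ A B : Set ℕ, A ∈ I → B ∈ I → A ∪ B ∈ I
  finite_mem : ∀ A : Set ℕ, A.Finite → A ∈ I
  univ_not_mem : (univ : Set ℕ) ∉ I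

/-- The family `I` viewed as a subset of the Cantor space `ℕ → Bool` (product of discrete
two point spaces): the characteristic functions of the members of `I`. -/
def toCantor (I : Set (Set ℕ)) : Set (ℕ → Bool) := {c | {n | c n = true} ∈ I}

/-- `F_σ` sets, the class Sigma-0-2: countable unions of closed sets. -/
def IsFsigma {α : Type*} [TopologicalSpace α] (s : Set α) : Prop :=
  ∃ C : ℕ → Set α, (∀ n, IsClosed (C n)) ∧ s = ⋃ n, C n

/-- The class Pi-0-4: countable intersections of countable unions of `G_δ` sets. -/
def IsPi04 {α : Type*} [TopologicalSpace α] (s : Set α) : Prop :=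
  ∃ G : ℕ → ℕ → Set α, (∀ k m, IsGδ (G k m)) ∧ s = ⋂ k, ⋃ m, G k m

/-- The set of `I`-limit points of the sequence `x`: the points `η` such that for some `S ∉ I`
the subsequence of `x` indexed by `S` converges to `η`. -/
def limitPoints {X : Type*} [TopologicalSpace X] (I : Set (Set ℕ)) (x : ℕ → X) : Set X :=
  {η | ∃ S : Set ℕ, S ∉ I ∧ Tendsto x (atTop ⊓ 𝓟 S) (𝓝 η)}

/-- The family of all sets of `I`-limit points of sequences in `X`, together with the empty
set. -/
def limitFamily (X : Type*) [TopologicalSpace X] (I : Set (Set ℕ)) : Set (Set X) :=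
  {A | ∃ x : ℕ → X, A = limitPoints I x} ∪ {∅}

end Pool.Agent.H729Z.Pi04
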