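import Mathlib
import Pool.Agent.H729Z.Pi04.Defs

/-!
# The diagonal argument against a Pi-0-4 presentation
-/

set_option autoImplicit false

namespace Pool.Agent.H729Z.Pi04

open Set Filter Topology

theorem exists_seq_inv {α : Type*} (Inv : ℕ → α → Prop) (Rel : ℕ → α → α → Prop) (a0 : α)
    (h0 : Inv 0 a0) (hstep : ∀ k a, Inv k a → ∃ b, Inv (k + 1) b ∧ Rel k a b) :
    ∃ f : ℕ → α, f 0 = a0 ∧ (∀ k, Inv k (f k)) ∧ ∀ k, Rel k (f k) (f (k + 1)) := by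
  choose! g hg using hstep
  let f : ℕ → α := fun n => Nat.rec a0 (fun k a => g k a) n
  have hI : ∀ k, Inv k (f k) := by
    intro k
    induction k with
    | zero => exact h0
    | succ k ih => exact (hg k (f k) ih).1
  exact ⟨f, rfl, hI, fun k => (hg k (f k) (hI k)).2⟩

/-- every set on which `ρ` is finite-to-one is in `I` -/
def Good (I : Set (Set ℕ)) (ρ : ℕ → ℕ) : Prop :=
  ∀ Y : Set ℕ, (∀ n, (Y ∩ {i | ρ i < n}).Finite) → Y ∈ I

theorem Good.max {I : Set (Set ℕ)} (hI : IsIdeal I) {ρ τ : ℕ → ℕ} (h1 : Good I ρ)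
    (h2 : Good I τ) : Good I (fun i => max (ρ i) (τ i)) := by
  intro Y hY
  have hA : Y ∩ {i | τ i ≤ ρ i} ∈ I := by
    apply h1
    intro n
    refine (hY n).subset ?_
    rintro i ⟨⟨hi, h⟩, hn⟩
    refine ⟨hi, ?_⟩
    simp only [mem_ofPred_eq] at h hn ⊢
    omega
  have hB : Y ∩ {i | ρ i ≤ τ i} ∈ I := by
    apply h2
    intro n
    refine (hY n).subset ?_
    rintro i ⟨⟨hi, h⟩, hn⟩
    refine ⟨hi, ?_⟩
    simp only [mem_ofPred_eq] at h hn ⊢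
    omega
  refine hI.subset_mem _ _ ?_ (hI.union_mem _ _ hA hB)
  intro i hi
  rcases le_total (τ i) (ρ i) with h | h
  · exact Or.inl ⟨hi, h⟩
  · exact Or.inr ⟨hi, h⟩

theorem good_zero {I : Set (Set ℕ)} (hI : IsIdeal I) : Good I (fun _ => 0) := by
  intro Y hY
  apply hI.finite_mem
  refine (hY 1).subset ?_
  intro i hi
  exact ⟨hi, by simp⟩

/-- density of `G` below the condition `(E, W, ρ)` -/
def Live (G : Set (Set ℕ)) (E W : Set ℕ) (ρ : ℕ → ℕ) : Prop :=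
  ∀ E' : Set ℕ, E'.Finite → E ⊆ E' → E' \ E ⊆ W → ∀ n : ℕ,
    ∃ Y ∈ G, E' ⊆ Y ∧ Y \ E' ⊆ W ∩ {i | n ≤ ρ i}

theorem Live.mono {G : Set (Set ℕ)} {E W : Set ℕ} {ρ : ℕ → ℕ} (h : Live G E W ρ)
    {E1 : Set ℕ} {ρ1 : ℕ → ℕ} (n1 : ℕ) (hE : E ⊆ E1) (hE' : E1 \ E ⊆ W)
    (hρ : ∀ i, ρ i ≤ ρ1 i) : Live G E1 (W ∩ {i | n1 ≤ ρ1 i}) ρ1 := by
  intro E' hfin hsub hdiff n
  obtain ⟨Y, hYG, hY1, hY2⟩ := h E' hfin (hE.trans hsub) (by
    intro i hi
    by_cases h1 : i ∈ E1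
    · exact hE' ⟨h1, hi.2⟩
    · exact (hdiff ⟨hi.1, h1⟩).1) (max n n1)
  refine ⟨Y, hYG, hY1, fun i hi => ?_⟩
  obtain ⟨hw, hn⟩ := hY2 hi
  have h3 := hρ i
  simp only [mem_ofPred_eq] at hn
  refine ⟨⟨hw, ?_⟩, ?_⟩ <;> simp only [mem_ofPred_eq] <;> omega

theorem Live.mono_left {G : Set (Set ℕ)} {E W : Set ℕ} {ρ : ℕ → ℕ} (h : Live G E W ρ)
    {E1 : Set ℕ} (hE : E ⊆ E1) (hE' : E1 \ E ⊆ W) : Live G E1 W ρ := by
  have := h.mono 0 hE hE' (fun i => le_rfl)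
  simpa using this

/-- Baire category step -/
theorem exists_live {I : Set (Set ℕ)} (G : ℕ → Set (Set ℕ)) (hG : ∀ Y ∈ I, ∃ m, Y ∈ G m)
    {E W : Set ℕ} {ρ : ℕ → ℕ} (hρ : Good I ρ) (hE : E.Finite) :
    ∃ (m : ℕ) (E1 : Set ℕ) (n1 : ℕ), E1.Finite ∧ E ⊆ E1 ∧ E1 \ E ⊆ W ∧
      Live (G m) E1 (W ∩ {i | n1 ≤ ρ i}) ρ := by
  by_contra hcon
  have hstep : ∀ (k : ℕ) (a : Set ℕ × ℕ),
      (a.1.Finite ∧ E ⊆ a.1 ∧ a.1 \ E ⊆ W ∧ k ≤ a.2) →
      ∃ b : Set ℕ × ℕ, (b.1.Finite ∧ E ⊆ b.1 ∧ b.1 \ E ⊆ W ∧ k + 1 ≤ b.2) ∧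
        (a.1 ⊆ b.1 ∧ b.1 \ a.1 ⊆ W ∩ {i | a.2 ≤ ρ i} ∧ a.2 ≤ b.2 ∧
          ∀ Y ∈ G k, b.1 ⊆ Y → ¬ (Y \ b.1 ⊆ W ∩ {i | b.2 ≤ ρ i})) := by
    rintro k ⟨E1, n1⟩ ⟨h1, h2, h3, h4⟩
    have hnl : ¬ Live (G k) E1 (W ∩ {i | n1 ≤ ρ i}) ρ := fun hl =>
      hcon ⟨k, E1, n1, h1, h2, h3, hl⟩
    unfold Live at hnl
    push Not at hnl
    obtain ⟨E', hfin, hsub, hdiff, n, hn⟩ := hnl
    refine ⟨(E', max n (n1 + 1)), ⟨hfin, h2.trans hsub, ?_, ?_⟩, hsub, hdiff, ?_, ?_⟩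
    · intro i hi
      by_cases h5 : i ∈ E1
      · exact h3 ⟨h5, hi.2⟩
      · exact (hdiff ⟨hi.1, h5⟩).1
    · simp only at h4 ⊢
      omega
    · simp only
      omega
    · intro Y hY hY1 hY2
      apply hn Y hY hY1
      intro i hi
      obtain ⟨hw, h6⟩ := hY2 hi
      simp only [mem_ofPred_eq] at h6
      refine ⟨⟨hw, ?_⟩, ?_⟩ <;> simp only [mem_ofPred_eq] <;> omega
  obtain ⟨f, -, hinv, hrel⟩ := exists_seq_inv _ _ (E, 0)
    ⟨hE, subset_rfl, by simp, le_rfl⟩ hstep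
  have hmonoE : Monotone (fun k => (f k).1) := monotone_nat_of_le_succ fun k => (hrel k).1
  have hmonon : Monotone (fun k => (f k).2) := monotone_nat_of_le_succ fun k => (hrel k).2.2.1
  have key : ∀ k d, (f (k + d)).1 \ (f k).1 ⊆ W ∩ {i | (f k).2 ≤ ρ i} := by
    intro k d
    induction d with
    | zero => simp
    | succ d ih =>
      intro i hi
      by_cases h1 : i ∈ (f (k + d)).1
      · exact ih ⟨h1, hi.2⟩
      · obtain ⟨hw, h2⟩ := (hrel (k + d)).2.1 ⟨hi.1, h1⟩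
        exact ⟨hw, le_trans (hmonon (Nat.le_add_right k d)) h2⟩
  have key2 : ∀ k, (⋃ l, (f l).1) \ (f k).1 ⊆ W ∩ {i | (f k).2 ≤ ρ i} := by
    intro k i hi
    obtain ⟨l, hl⟩ := mem_iUnion.1 hi.1
    exact key k l ⟨hmonoE (Nat.le_add_left l k) hl, hi.2⟩
  have hYI : (⋃ l, (f l).1) ∈ I := by
    apply hρ
    intro n
    refine (hinv n).1.subset ?_
    rintro i ⟨hi, hn⟩
    by_contra h1
    have h2 := (key2 n ⟨hi, h1⟩).2
    have h3 := (hinv n).2.2.2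
    simp only [mem_ofPred_eq] at hn h2
    omega
  obtain ⟨m, hm⟩ := hG _ hYI
  exact (hrel m).2.2.2 _ hm (subset_iUnion (fun l => (f l).1) (m + 1)) (key2 (m + 1))

/-- state of the diagonal construction -/
structure DState (σ : Type*) where
  s : σ
  E : Set ℕ
  W : Set ℕ
  ρ : ℕ → ℕ
  m : ℕ → ℕ

theorem diag {I : Set (Set ℕ)} (hI : IsIdeal I) (U : ℕ → ℕ → ℕ → Set (Set ℕ))
    (hU : ∀ k m n, ∀ Y ∈ U k m n, ∃ N : ℕ, ∀ Y' : Set ℕ, (∀ i < N, (i ∈ Y' ↔ i ∈ Y)) →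
      Y' ∈ U k m n)
    (hIU : ∀ Y, Y ∈ I ↔ ∀ k, ∃ m, ∀ n, Y ∈ U k m n)
    {σ : Type*} (s0 : σ) (r : σ → ℕ → ℕ) (F A : σ → Set ℕ) (step : ℕ → σ → σ → Prop)
    (h1 : ∀ s, Good I (r s)) (hr : ∀ s i, r s i ≤ i)
    (h2 : ∀ k s n, ∃ s', step k s s' ∧ A s' ⊆ A s ∩ {i | n ≤ r s i})
    (h3 : ∀ s, (F s).Finite ∧ F s ⊆ A s)
    (h4 : ∀ seq : ℕ → σ, seq 0 = s0 → (∀ k, step k (seq k) (seq (k + 1))) →
      (⋃ k, F (seq (k + 1))) ∉ I) : False := by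
  classical
  let G : ℕ → ℕ → Set (Set ℕ) := fun k m => {Y | ∀ n, Y ∈ U k m n}
  let Inv : ℕ → DState σ → Prop := fun k a =>
    a.E.Finite ∧ A a.s ⊆ a.W ∧ Good I a.ρ ∧ (∀ i, a.ρ i ≤ i) ∧
      ∀ j < k, Live (G j (a.m j)) a.E a.W a.ρ
  let Rel : ℕ → DState σ → DState σ → Prop := fun k a b =>
    step k a.s b.s ∧ a.E ⊆ b.E ∧ b.E \ a.E ⊆ a.W ∧ b.W ⊆ a.W ∧ F b.s ⊆ b.E ∧
      (∀ j < k, b.m j = a.m j) ∧
      ∀ Y', b.E ⊆ Y' → Y' \ b.E ⊆ b.W →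
        Y' ∈ U (Nat.unpair k).1 (b.m (Nat.unpair k).1) (Nat.unpair k).2
  have hstep : ∀ k a, Inv k a → ∃ b, Inv (k + 1) b ∧ Rel k a b := by
    rintro k ⟨s, E, W, ρ, m⟩ ⟨hE, hAW, hρ, hρi, hlive⟩
    simp only at hE hAW hρ hρi hlive
    set ρ1 : ℕ → ℕ := fun i => max (ρ i) (r s i) with hρ1
    have hρ1g : Good I ρ1 := Good.max hI hρ (h1 s)
    have hρ1i : ∀ i, ρ1 i ≤ i := fun i => max_le (hρi i) (hr s i)
    obtain ⟨mk, E1, n1, hE1, hEE1, hE1W, hl1⟩ := exists_live (G k)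
      (fun Y hY => (hIU Y).1 hY k) (W := W) hρ1g hE
    set W1 := W ∩ {i | n1 ≤ ρ1 i} with hW1
    set m1 := Function.update m k mk with hm1
    have hlive1 : ∀ j < k + 1, Live (G j (m1 j)) E1 W1 ρ1 := by
      intro j hj
      by_cases hjk : j = k
      · subst hjk
        simpa [hm1] using hl1
      · have : m1 j = m j := by simp [hm1, Function.update_of_ne hjk]
        rw [this]
        exact (hlive j (by omega)).mono n1 hEE1 hE1W (fun i => le_max_left _ _)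
    have hj : (Nat.unpair k).1 < k + 1 := Nat.lt_succ_of_le (Nat.unpair_left_le k)
    obtain ⟨Y, hYG, hY1, hY2⟩ := hlive1 _ hj E1 hE1 subset_rfl (by simp) 0
    obtain ⟨N, hN⟩ := hU _ _ _ Y (hYG (Nat.unpair k).2)
    set E2 := E1 ∪ (Y ∩ {i | i < N}) with hE2
    set W2 := W1 ∩ {i | N ≤ ρ1 i} with hW2
    have hE2fin : E2.Finite := hE1.union ((Set.finite_lt_nat N).subset inter_subset_right)
    have hE2W : E2 \ E1 ⊆ W1 := by
      rintro i ⟨hi | hi, hi'⟩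
      · exact absurd hi hi'
      · exact (hY2 ⟨hi.1, hi'⟩).1
    obtain ⟨s', hs', hA'⟩ := h2 k s (max n1 N)
    have hA'W : A s' ⊆ W2 := by
      intro i hi
      obtain ⟨h5, h6⟩ := hA' hi
      simp only [mem_ofPred_eq] at h6
      have h7 : r s i ≤ ρ1 i := le_max_right _ _
      refine ⟨⟨hAW h5, ?_⟩, ?_⟩ <;> simp only [mem_ofPred_eq] <;> omega
    have hE3W : (E2 ∪ F s') \ E2 ⊆ W2 := by
      rintro i ⟨hi | hi, hi'⟩
      · exact absurd hi hi'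
      · exact hA'W ((h3 s').2 hi)
    refine ⟨⟨s', E2 ∪ F s', W2, ρ1, m1⟩, ⟨hE2fin.union (h3 s').1, hA'W, hρ1g, hρ1i, ?_⟩,
      hs', ?_, ?_, ?_, subset_union_right, ?_, ?_⟩
    · intro j hj'
      exact ((hlive1 j hj').mono N subset_union_left hE2W (fun i => le_rfl)).mono_left
        subset_union_left hE3W
    · exact hEE1.trans (subset_union_left.trans subset_union_left)
    · intro i hi
      by_cases h5 : i ∈ E2
      · by_cases h6 : i ∈ E1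
        · exact hE1W ⟨h6, hi.2⟩
        · exact (hE2W ⟨h5, h6⟩).1
      · exact (hE3W ⟨hi.1, h5⟩).1.1
    · exact fun i hi => hi.1.1
    · intro j hj'
      simp [hm1, Function.update_of_ne (show j ≠ k by omega)]
    · intro Y' hY' hY''
      apply hN
      intro i hi
      constructor
      · intro h5
        by_cases h6 : i ∈ E2 ∪ F s'
        · by_cases h7 : i ∈ E2
          · rcases h7 with h7 | h7
            · exact hY1 h7
            · exact h7.1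
          · have h8 := (hE3W ⟨h6, h7⟩).2
            have h9 := hρ1i i
            simp only [mem_ofPred_eq] at h8
            omega
        · have h8 := (hY'' ⟨h5, h6⟩).2
          have h9 := hρ1i i
          simp only [mem_ofPred_eq] at h8
          omega
      · intro h5
        exact hY' (Or.inl (Or.inr ⟨h5, hi⟩))
  obtain ⟨f, hf0, hinv, hrel⟩ := exists_seq_inv Inv Rel ⟨s0, ∅, univ, fun _ => 0, fun _ => 0⟩
    ⟨finite_empty, subset_univ _, good_zero hI, fun i => Nat.zero_le i,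
      fun j hj => absurd hj (Nat.not_lt_zero j)⟩ hstep
  have hmonoE : Monotone (fun k => (f k).E) := monotone_nat_of_le_succ fun k => (hrel k).2.1
  have hantiW : Antitone (fun k => (f k).W) :=
    antitone_nat_of_succ_le fun k => (hrel k).2.2.2.1
  have key : ∀ k d, (f (k + d)).E \ (f k).E ⊆ (f k).W := by
    intro k d
    induction d with
    | zero => simp
    | succ d ih =>
      intro i hi
      by_cases h5 : i ∈ (f (k + d)).E
      · exact ih ⟨h5, hi.2⟩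
      · exact hantiW (Nat.le_add_right k d) ((hrel (k + d)).2.2.1 ⟨hi.1, h5⟩)
  have key2 : ∀ k, (⋃ l, (f l).E) \ (f k).E ⊆ (f k).W := by
    intro k i hi
    obtain ⟨l, hl⟩ := mem_iUnion.1 hi.1
    exact key k l ⟨hmonoE (Nat.le_add_left l k) hl, hi.2⟩
  have keym : ∀ j d, (f (j + 1 + d)).m j = (f (j + 1)).m j := by
    intro j d
    induction d with
    | zero => rfl
    | succ d ih =>
      rw [← ih]
      exact (hrel (j + 1 + d)).2.2.2.2.2.1 j (by omega)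
  have hYI : (⋃ l, (f l).E) ∈ I := by
    rw [hIU]
    intro j
    refine ⟨(f (j + 1)).m j, fun n => ?_⟩
    have h5 := (hrel (Nat.pair j n)).2.2.2.2.2.2 _
      (subset_iUnion (fun l => (f l).E) (Nat.pair j n + 1)) (key2 _)
    rw [Nat.unpair_pair] at h5
    simp only at h5
    obtain ⟨d, hd⟩ := Nat.exists_eq_add_of_le (Nat.left_le_pair j n)
    have h6 : Nat.pair j n + 1 = j + 1 + d := by omega
    rw [h6, keym] at h5
    exact h5
  refine h4 (fun k => (f k).s) (by rw [hf0]) (fun k => (hrel k).1) ?_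
  refine hI.subset_mem _ _ ?_ hYI
  intro i hi
  obtain ⟨k, hk⟩ := mem_iUnion.1 hi
  exact mem_iUnion.2 ⟨k + 1, (hrel k).2.2.2.2.1 hk⟩

end Pool.Agent.H729Z.Pi04
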