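import Mathlib
import Pool.Agent.H729Z.Pi04.Diag

/-!
# Meagreness of ideals with the Baire property and blocks
-/

set_option autoImplicit false

namespace Pool.Agent.H729Z.Pi04

open Set Filter Topology

theorem flip_residual {Z : Type*} [TopologicalSpace Z] [BaireSpace Z] {M : Set Z}
    (hM : BaireMeasurableSet M) (h : ℕ → Z ≃ₜ Z)
    (hlim : ∀ z, Tendsto (fun k => h k z) atTop (𝓝 z))
    (hflip : ∀ k z, z ∈ M → h k z ∉ M) : Mᶜ ∈ residual Z := by
  obtain ⟨U, hUo, hU⟩ := hM.residualEq_isOpen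
  have hR : {z | z ∈ M ↔ z ∈ U} ∈ residual Z := by
    have := Filter.eventuallyEq_set.1 hU
    exact this
  rcases U.eq_empty_or_nonempty with rfl | ⟨z, hz⟩
  · filter_upwards [hR] with z hz
    simpa using hz
  · exfalso
    obtain ⟨k, hk⟩ := ((hlim z).eventually (hUo.mem_nhds hz)).exists
    have hR2 : (h k) ⁻¹' {z | z ∈ M ↔ z ∈ U} ∈ residual Z := by
      have := (h k).residual_map_eq
      rw [← this] at hR
      exact hR
    have hd := dense_of_mem_residual (inter_mem hR hR2)
    obtain ⟨w, ⟨hw1, hw2⟩, hw3, hw4⟩ := hd.inter_open_nonempty (U ∩ (h k) ⁻¹' U)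
      (hUo.inter (hUo.preimage (h k).continuous)) ⟨z, hz, hk⟩
    exact hflip k w (hw3.2 hw1) (hw4.2 hw2)

theorem exists_dense_open_seq {Z : Type*} [TopologicalSpace Z] {s : Set Z}
    (hs : s ∈ residual Z) :
    ∃ O : ℕ → Set Z, (∀ k, IsOpen (O k)) ∧ (∀ k, Dense (O k)) ∧ ∀ z, (∀ k, z ∈ O k) → z ∈ s := by
  obtain ⟨S, hSo, hSd, hSc, hS⟩ := mem_residual_iff.1 hs
  obtain ⟨O, hO⟩ := (hSc.insert univ).exists_eq_range (insert_nonempty _ _)
  have hmem : ∀ k, O k ∈ insert univ S := fun k => hO ▸ mem_range_self k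
  refine ⟨O, fun k => ?_, fun k => ?_, fun z hz => hS ?_⟩
  · rcases hmem k with h | h
    · rw [h]; exact isOpen_univ
    · exact hSo _ h
  · rcases hmem k with h | h
    · rw [h]; exact dense_univ
    · exact hSd _ h
  · intro t ht
    have : t ∈ range O := hO ▸ mem_insert_of_mem _ ht
    obtain ⟨k, rfl⟩ := this
    exact hz k

/-- flip all coordinates from `k` on -/
def flipAt (k : ℕ) (y : ℕ → Bool) : ℕ → Bool := fun i => if i < k then y i else !(y i)

theorem flipAt_flipAt (k : ℕ) (y : ℕ → Bool) : flipAt k (flipAt k y) = y := by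
  funext i
  unfold flipAt
  split_ifs <;> simp

theorem continuous_flipAt (k : ℕ) : Continuous (flipAt k) := by
  refine continuous_pi fun i => ?_
  unfold flipAt
  split_ifs
  · exact continuous_apply i
  · exact (continuous_of_discreteTopology (f := fun b : Bool => !b)).comp (continuous_apply i)

/-- the flip as a homeomorphism -/
def flipHomeo (k : ℕ) : (ℕ → Bool) ≃ₜ (ℕ → Bool) where
  toFun := flipAt k
  invFun := flipAt k
  left_inv := flipAt_flipAt k
  right_inv := flipAt_flipAt k
  continuous_toFun := continuous_flipAt k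
  continuous_invFun := continuous_flipAt k

theorem tendsto_flipAt (y : ℕ → Bool) : Tendsto (fun k => flipAt k y) atTop (𝓝 y) := by
  refine tendsto_pi_nhds.2 fun i => ?_
  refine tendsto_const_nhds.congr' ?_
  filter_upwards [eventually_gt_atTop i] with k hk
  simp [flipAt, hk]

theorem not_both {I : Set (Set ℕ)} (hI : IsIdeal I) {S : Set ℕ} (hS : S ∉ I) (k : ℕ)
    (y : ℕ → Bool) (h1 : {i | i ∈ S ∧ y i = true} ∈ I) :
    {i | i ∈ S ∧ flipAt k y i = true} ∉ I := by
  intro h2
  apply hS
  refine hI.subset_mem _ _ ?_ (hI.union_mem _ _ (hI.union_mem _ _ h1 h2)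
    (hI.finite_mem _ (Set.finite_lt_nat k)))
  intro i hi
  by_cases hik : i < k
  · exact Or.inr hik
  · cases hy : y i
    · exact Or.inl (Or.inr ⟨hi, by simp [flipAt, hik, hy]⟩)
    · exact Or.inl (Or.inl ⟨hi, hy⟩)

theorem IsPi04.baire_preimage {α Z : Type*} [TopologicalSpace α] [TopologicalSpace Z]
    {s : Set α} (hs : IsPi04 s) {f : Z → α} (hf : Continuous f) :
    BaireMeasurableSet (f ⁻¹' s) := by
  obtain ⟨G, hG, rfl⟩ := hs
  simp only [preimage_iInter, preimage_iUnion]
  refine BaireMeasurableSet.iInter fun k => BaireMeasurableSet.iUnion fun m => ?_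
  obtain ⟨U, hU, hU'⟩ := isGδ_iff_eq_iInter_nat.1 (hG k m)
  rw [hU', preimage_iInter]
  exact BaireMeasurableSet.iInter fun n => ((hU n).preimage hf).baireMeasurableSet

theorem exists_cyl {O : Set (ℕ → Bool)} (hO : IsOpen O) {y : ℕ → Bool} (hy : y ∈ O) :
    ∃ N : ℕ, ∀ y' : ℕ → Bool, (∀ i < N, y' i = y i) → y' ∈ O := by
  obtain ⟨t, ⟨x, n, rfl⟩, hyt, htO⟩ :=
    (PiNat.isTopologicalBasis_cylinders (fun _ : ℕ => Bool)).exists_subset_of_mem_open hy hO
  refine ⟨n, fun y' h => htO ?_⟩
  rw [PiNat.mem_cylinder_iff] at hyt ⊢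
  intro i hi
  rw [h i hi, hyt i hi]

/-- overwrite the first `a` coordinates -/
def ovw (a : ℕ) (u : Fin a → Bool) (y : ℕ → Bool) : ℕ → Bool :=
  fun i => if h : i < a then u ⟨i, h⟩ else y i

theorem continuous_ovw (a : ℕ) (u : Fin a → Bool) : Continuous (ovw a u) := by
  refine continuous_pi fun i => ?_
  unfold ovw
  split_ifs
  · exact continuous_const
  · exact continuous_apply i

theorem dense_preimage_ovw {O : Set (ℕ → Bool)} (hd : Dense O) (a : ℕ) (u : Fin a → Bool) :
    Dense (ovw a u ⁻¹' O) := by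
  rw [dense_iff_inter_open]
  rintro V hV ⟨y, hy⟩
  obtain ⟨N, hN⟩ := exists_cyl hV hy
  obtain ⟨w, hw1, hw2⟩ := hd.inter_open_nonempty (PiNat.cylinder (ovw a u y) (max N a))
    (PiNat.isOpen_cylinder (fun _ : ℕ => Bool) _ _) ⟨_, PiNat.self_mem_cylinder _ _⟩
  rw [PiNat.mem_cylinder_iff] at hw1
  refine ⟨fun i => if i < a then y i else w i, hN _ ?_, ?_⟩
  · intro i hi
    by_cases hia : i < a
    · simp [hia]
    · have := hw1 i (lt_of_lt_of_le hi (le_max_left _ _))
      simp [hia, this, ovw]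
  · have : ovw a u (fun i => if i < a then y i else w i) = w := by
      funext i
      by_cases hia : i < a
      · have := hw1 i (lt_of_lt_of_le hia (le_max_right _ _))
        simp [ovw, hia] at this ⊢
        exact this.symm
      · simp [ovw, hia]
    show ovw a u _ ∈ O
    rw [this]
    exact hw2

theorem exists_pattern {O : Set (ℕ → Bool)} (hO : IsOpen O) (hd : Dense O) (a : ℕ) :
    ∃ (b : ℕ) (y : ℕ → Bool), a < b ∧
      ∀ y' : ℕ → Bool, (∀ i, a ≤ i → i < b → y' i = y i) → y' ∈ O := by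
  have h1 : Dense (⋂ u : Fin a → Bool, ovw a u ⁻¹' O) :=
    dense_iInter_of_isOpen (fun u => hO.preimage (continuous_ovw a u))
      (fun u => dense_preimage_ovw hd a u)
  have h2 : IsOpen (⋂ u : Fin a → Bool, ovw a u ⁻¹' O) :=
    isOpen_iInter_of_finite fun u => hO.preimage (continuous_ovw a u)
  obtain ⟨y, hy⟩ := h1.nonempty
  obtain ⟨N, hN⟩ := exists_cyl h2 hy
  refine ⟨max N (a + 1), y, by omega, fun y' h => ?_⟩
  have h3 := hN (fun i => if i < a then y i else y' i) (by
    intro i hi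
    by_cases hia : i < a
    · simp [hia]
    · simp only [hia, if_false]
      exact h i (by omega) (by omega))
  have h4 := mem_iInter.1 h3 (fun i => y' i)
  have h5 : ovw a (fun i => y' i) (fun i => if i < a then y i else y' i) = y' := by
    funext i
    by_cases hia : i < a <;> simp [ovw, hia]
  rw [mem_preimage, h5] at h4
  exact h4

/-- Talagrand blocks inside a positive set -/
theorem exists_blocks {I : Set (Set ℕ)} (hI : IsIdeal I) (hP : IsPi04 (toCantor I))
    {S : Set ℕ} (hS : S ∉ I) :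
    ∃ g : ℕ → ℕ, (∀ n, {i | g i < n}.Finite) ∧
      ∀ J : Set ℕ, J.Infinite → S ∩ g ⁻¹' J ∉ I := by
  classical
  let f : (ℕ → Bool) → (ℕ → Bool) := fun y i => decide (i ∈ S) && y i
  have hf : Continuous f := by
    refine continuous_pi fun i => ?_
    exact (continuous_of_discreteTopology
      (f := fun b : Bool => decide (i ∈ S) && b)).comp (continuous_apply i)
  have hmem : ∀ y, y ∈ f ⁻¹' toCantor I ↔ {i | i ∈ S ∧ y i = true} ∈ I := by
    intro y
    simp [f, toCantor]
  have hres := flip_residual (hP.baire_preimage hf) flipHomeo tendsto_flipAt (by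
    intro k y hy
    rw [hmem] at hy ⊢
    exact not_both hI hS k y hy)
  obtain ⟨O, hOo, hOd, hO⟩ := exists_dense_open_seq hres
  have hO'o : ∀ k, IsOpen (⋂ j : Fin (k + 1), O j) := fun k =>
    isOpen_iInter_of_finite fun j => hOo j
  have hO'd : ∀ k, Dense (⋂ j : Fin (k + 1), O j) := fun k =>
    dense_iInter_of_isOpen (fun j => hOo j) (fun j => hOd j)
  choose b y hb hy using fun k a => exists_pattern (hO'o k) (hO'd k) a
  let a : ℕ → ℕ := fun n => Nat.rec 0 (fun k a => b k a) n
  have ha : ∀ k, a (k + 1) = b k (a k) := fun k => rfl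
  have hmono : StrictMono a := strictMono_nat_of_lt_succ fun k => by
    rw [ha]; exact hb k (a k)
  have hex : ∀ i, ∃ k, i < a (k + 1) := fun i =>
    ⟨i, lt_of_lt_of_le (Nat.lt_succ_self i) (hmono.id_le (i + 1))⟩
  let g : ℕ → ℕ := fun i => Nat.find (hex i)
  have hg1 : ∀ i, i < a (g i + 1) := fun i => Nat.find_spec (hex i)
  have hg2 : ∀ k i, a k ≤ i → i < a (k + 1) → g i = k := by
    intro k i h1 h2
    apply le_antisymm (Nat.find_min' (hex i) h2)
    by_contra h3
    have h4 := hg1 i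
    have h5 : a (g i + 1) ≤ a k := hmono.monotone (show g i + 1 ≤ k from not_le.1 h3)
    omega
  refine ⟨g, fun n => ?_, fun J hJ hmemI => ?_⟩
  · refine (Set.finite_lt_nat (a n)).subset ?_
    intro i hi
    have h4 := hg1 i
    have h5 : a (g i + 1) ≤ a n := hmono.monotone hi
    show i < a n
    omega
  · let Y : ℕ → Bool := fun i => decide (g i ∈ J) && y (g i) (a (g i)) i
    have hY : ∀ k, Y ∈ O k := by
      intro k
      obtain ⟨j, hj, hkj⟩ := hJ.exists_gt k
      have h1 := hy j (a j) Y (by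
        intro i h1 h2
        have h3 := hg2 j i h1 (by rw [ha]; exact h2)
        simp [Y, h3, hj])
      exact mem_iInter.1 h1 ⟨k, by omega⟩
    have h2 := hO Y hY
    rw [mem_compl_iff, hmem] at h2
    apply h2
    refine hI.subset_mem _ _ ?_ hmemI
    rintro i ⟨hi1, hi2⟩
    refine ⟨hi1, ?_⟩
    simp only [Y, Bool.and_eq_true, decide_eq_true_eq] at hi2
    exact hi2.1

end Pool.Agent.H729Z.Pi04
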