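import Mathlib
import Pool.Agent.H729Z.Pi04.Flip

/-!
# Realizing closed and F-sigma sets as sets of ideal limit points
-/

set_option autoImplicit false

namespace Pool.Agent.H729Z.Pi04

open Set Filter Topology

theorem tendsto_iff_finite {X : Type*} [MetricSpace X] {x : ℕ → X} {S : Set ℕ} {η : X} :
    Tendsto x (atTop ⊓ 𝓟 S) (𝓝 η) ↔ ∀ ε > 0, {i | i ∈ S ∧ ε ≤ dist (x i) η}.Finite := by
  rw [Metric.tendsto_nhds, ← Nat.cofinite_eq_atTop]
  refine forall₂_congr fun ε _ => ?_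
  rw [eventually_inf_principal, eventually_cofinite]
  simp [not_lt]

theorem mem_of_tendsto {X : Type*} [MetricSpace X] {x : ℕ → X} {S T : Set ℕ} {η : X}
    {C : Set X} (hC : IsClosed C) (hT : T.Infinite) (hTS : T ⊆ S) (hx : ∀ i ∈ T, x i ∈ C)
    (h : Tendsto x (atTop ⊓ 𝓟 S) (𝓝 η)) : η ∈ C := by
  rw [← hC.closure_eq, Metric.mem_closure_iff]
  intro ε hε
  obtain ⟨i, hi, hi2⟩ := (hT.sdiff (tendsto_iff_finite.1 h ε hε)).nonempty
  refine ⟨x i, hx i hi, ?_⟩
  rw [dist_comm]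
  by_contra h3
  exact hi2 ⟨hTS hi, not_lt.1 h3⟩

/-- a closed nonempty set is realized along any positive set -/
theorem realize_closed {X : Type*} [MetricSpace X] [SecondCountableTopology X]
    {I : Set (Set ℕ)} (hI : IsIdeal I) (hP : IsPi04 (toCantor I)) {S : Set ℕ} (hS : S ∉ I)
    {C : Set X} (hne : C.Nonempty) :
    ∃ y : ℕ → X, (∀ i, y i ∈ C) ∧
      ∀ η ∈ C, ∃ T : Set ℕ, T ⊆ S ∧ T ∉ I ∧ Tendsto y (atTop ⊓ 𝓟 T) (𝓝 η) := by
  obtain ⟨g, hg1, hg2⟩ := exists_blocks hI hP hS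
  have : Nonempty C := hne.to_subtype
  obtain ⟨d, hd⟩ := TopologicalSpace.exists_dense_seq C
  refine ⟨fun i => (d (Nat.unpair (g i)).1 : X), fun i => (d _).2, fun η hη => ?_⟩
  have hex : ∀ l : ℕ, ∃ n, dist (d n : X) η < 1 / ((l : ℝ) + 1) := by
    intro l
    obtain ⟨n, hn⟩ := hd.exists_dist_lt (⟨η, hη⟩ : C) (Nat.one_div_pos_of_nat (n := l))
    refine ⟨n, ?_⟩
    rw [dist_comm]
    exact hn
  choose n hn using hex
  have hinj : Function.Injective (fun l => Nat.pair (n l) l) := by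
    intro l l' h
    exact (Nat.pair_eq_pair.1 h).2
  refine ⟨S ∩ g ⁻¹' (range fun l => Nat.pair (n l) l), inter_subset_left,
    hg2 _ (infinite_range_of_injective hinj), tendsto_iff_finite.2 fun ε hε => ?_⟩
  obtain ⟨L, hL⟩ := exists_nat_one_div_lt hε
  obtain ⟨B, hB⟩ := ((Set.finite_lt_nat L).image (fun l => Nat.pair (n l) l)).bddAbove
  refine (hg1 (B + 1)).subset ?_
  rintro i ⟨⟨-, l, hl⟩, hi⟩
  simp only at hl
  rw [← hl, Nat.unpair_pair] at hi
  have h1 : l < L := by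
    by_contra h2
    have h3 : (1 : ℝ) / ((l : ℝ) + 1) ≤ 1 / ((L : ℝ) + 1) :=
      Nat.one_div_le_one_div (not_lt.1 h2)
    have := hn l
    simp only at hi
    linarith
  have h4 := hB ⟨l, h1, rfl⟩
  simp only at h4
  show g i < B + 1
  omega

theorem closed_mem_limitFamily {X : Type*} [MetricSpace X] [SecondCountableTopology X]
    {I : Set (Set ℕ)} (hI : IsIdeal I) (hP : IsPi04 (toCantor I)) {C : Set X}
    (hC : IsClosed C) : C ∈ limitFamily X I := by
  rcases C.eq_empty_or_nonempty with rfl | hne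
  · exact Or.inr rfl
  obtain ⟨y, hy1, hy2⟩ := realize_closed hI hP hI.univ_not_mem hne
  refine Or.inl ⟨y, Subset.antisymm ?_ ?_⟩
  · intro η hη
    obtain ⟨T, -, hT, hT2⟩ := hy2 η hη
    exact ⟨T, hT, hT2⟩
  · rintro η ⟨S, hS, hS2⟩
    exact mem_of_tendsto hC (fun h => hS (hI.finite_mem _ h)) subset_rfl (fun i _ => hy1 i) hS2

theorem fsigma_mem_limitFamily {X : Type*} [MetricSpace X] [SecondCountableTopology X]
    {I : Set (Set ℕ)} (hI : IsIdeal I) (hP : IsPi04 (toCantor I)) {r : ℕ → ℕ} (hr : Good I r)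
    (hinf : {j | r ⁻¹' {j} ∉ I}.Infinite) {A : Set X} (hA : IsFsigma A) :
    A ∈ limitFamily X I := by
  classical
  rcases A.eq_empty_or_nonempty with rfl | ⟨c, hc⟩
  · exact Or.inr rfl
  obtain ⟨C, hC, hAC⟩ := hA
  let p : ℕ → Prop := fun j => r ⁻¹' {j} ∉ I
  let D : ℕ → Set X := fun j => insert c (C (Nat.count p j))
  have hDc : ∀ j, IsClosed (D j) := fun j => isClosed_singleton.union (hC _)
  have hDA : ∀ j, D j ⊆ A := by
    intro j
    refine insert_subset hc ?_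
    rw [hAC]
    exact subset_iUnion C _
  have hex : ∀ j, ∃ y : ℕ → X, (∀ i, y i ∈ D j) ∧ (p j →
      ∀ η ∈ D j, ∃ T : Set ℕ, T ⊆ r ⁻¹' {j} ∧ T ∉ I ∧ Tendsto y (atTop ⊓ 𝓟 T) (𝓝 η)) := by
    intro j
    by_cases hj : p j
    · obtain ⟨y, hy1, hy2⟩ := realize_closed hI hP hj (C := D j) (insert_nonempty _ _)
      exact ⟨y, hy1, fun _ => hy2⟩
    · exact ⟨fun _ => c, fun _ => mem_insert _ _, fun h => absurd h hj⟩
  choose y hy1 hy2 using hex
  refine Or.inl ⟨fun i => y (r i) i, Subset.antisymm ?_ ?_⟩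
  · intro η hη
    rw [hAC] at hη
    obtain ⟨n, hn⟩ := mem_iUnion.1 hη
    have h1 : p (Nat.nth p n) := Nat.nth_mem_of_infinite hinf n
    have h2 : Nat.count p (Nat.nth p n) = n := Nat.count_nth_of_infinite hinf n
    obtain ⟨T, hT1, hT2, hT3⟩ := hy2 _ h1 η (mem_insert_of_mem _ (by rw [h2]; exact hn))
    refine ⟨T, hT2, hT3.congr' ?_⟩
    refine eventually_inf_principal.2 (Eventually.of_forall fun i hi => ?_)
    have : r i = Nat.nth p n := hT1 hi
    simp only [this]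
  · rintro η ⟨S, hS, hS2⟩
    have h1 : ∃ j, (S ∩ r ⁻¹' {j}).Infinite := by
      by_contra h2
      push Not at h2
      apply hS
      apply hr
      intro n
      refine ((Set.finite_lt_nat n).biUnion (fun j _ => h2 j)).subset ?_
      rintro i ⟨hi1, hi2⟩
      exact mem_biUnion hi2 ⟨hi1, rfl⟩
    obtain ⟨j, hj⟩ := h1
    refine hDA j (mem_of_tendsto (hDc j) hj inter_subset_left ?_ hS2)
    rintro i ⟨-, hi⟩
    have : r i = j := hi
    simp only [this]
    exact hy1 j i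

open Classical in
/-- closeness level of `x i` to `q` -/
noncomputable def lev {X : Type*} [MetricSpace X] (x : ℕ → X) (q : X) (i : ℕ) : ℕ :=
  Nat.findGreatest (fun n => dist (x i) q < 1 / ((n : ℝ) + 1)) i

theorem lev_le {X : Type*} [MetricSpace X] (x : ℕ → X) (q : X) (i : ℕ) : lev x q i ≤ i := by
  classical
  unfold lev
  convert Nat.findGreatest_le i

theorem le_lev {X : Type*} [MetricSpace X] {x : ℕ → X} {q : X} {i n : ℕ} (h1 : n ≤ i)
    (h2 : dist (x i) q < 1 / ((n : ℝ) + 1)) : n ≤ lev x q i := by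
  classical
  unfold lev
  convert Nat.le_findGreatest (P := fun n => dist (x i) q < 1 / ((n : ℝ) + 1)) h1 h2

theorem dist_lt_of_le_lev {X : Type*} [MetricSpace X] {x : ℕ → X} {q : X} {i n : ℕ}
    (h0 : 0 < n) (h1 : n ≤ lev x q i) : dist (x i) q < 1 / ((n : ℝ) + 1) := by
  classical
  have h2 : dist (x i) q < 1 / ((lev x q i : ℝ) + 1) :=
    Nat.findGreatest_of_ne_zero (P := fun n => dist (x i) q < 1 / ((n : ℝ) + 1)) (n := i)
      (by unfold lev; convert rfl) (by omega)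
  exact lt_of_lt_of_le h2 (Nat.one_div_le_one_div h1)

theorem good_lev {X : Type*} [MetricSpace X] {I : Set (Set ℕ)} {x : ℕ → X} {q : X}
    (hq : q ∉ limitPoints I x) : Good I (lev x q) := by
  intro Y hY
  by_contra hYI
  refine hq ⟨Y, hYI, tendsto_iff_finite.2 fun ε hε => ?_⟩
  obtain ⟨L, hL⟩ := exists_nat_one_div_lt hε
  refine (hY (L + 1)).subset ?_
  rintro i ⟨hi1, hi2⟩
  refine ⟨hi1, ?_⟩
  by_contra h3
  have h4 := dist_lt_of_le_lev (Nat.succ_pos L) (not_lt.1 h3)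
  have h5 : (1 : ℝ) / (((L + 1 : ℕ) : ℝ) + 1) ≤ 1 / ((L : ℝ) + 1) :=
    Nat.one_div_le_one_div (Nat.le_succ L)
  linarith

theorem finite_biUnion_mem {I : Set (Set ℕ)} (hI : IsIdeal I) {s : Set ℕ} (hs : s.Finite)
    {f : ℕ → Set ℕ} (hf : ∀ j ∈ s, f j ∈ I) : (⋃ j ∈ s, f j) ∈ I := by
  induction s, hs using Set.Finite.induction_on with
  | empty => simpa using hI.finite_mem _ finite_empty
  | insert _ _ ih =>
    rw [biUnion_insert]
    exact hI.union_mem _ _ (hf _ (mem_insert _ _)) (ih fun j hj => hf j (mem_insert_of_mem _ hj))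

theorem infinite_levels {X : Type*} [MetricSpace X] {I : Set (Set ℕ)} (hI : IsIdeal I)
    {x : ℕ → X} {q : X} (hq : q ∉ limitPoints I x) (hq2 : q ∈ closure (limitPoints I x)) :
    {j | lev x q ⁻¹' {j} ∉ I}.Infinite := by
  refine Set.infinite_of_forall_exists_gt fun n => ?_
  obtain ⟨η, ⟨T, hT, hT2⟩, hη⟩ := Metric.mem_closure_iff.1 hq2 (1 / (((n + 1 : ℕ) : ℝ) + 1) / 2)
    (half_pos Nat.one_div_pos_of_nat)
  have hne : 0 < dist q η := dist_pos.2 (by rintro rfl; exact hq ⟨T, hT, hT2⟩)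
  obtain ⟨L, hL⟩ := exists_nat_one_div_lt (half_pos hne)
  by_contra hcon
  push Not at hcon
  apply hT
  have h1 := tendsto_iff_finite.1 hT2 _ (half_pos hne)
  have h2 : (⋃ j ∈ Set.Ioc n (L + 1), lev x q ⁻¹' {j}) ∈ I := by
    refine finite_biUnion_mem hI (Set.finite_Ioc _ _) fun j hj => ?_
    by_contra h3
    exact absurd (hcon j h3) (not_le.2 hj.1)
  refine hI.subset_mem _ _ ?_ (hI.union_mem _ _ h2
    (hI.finite_mem _ (h1.union (Set.finite_lt_nat (n + 1)))))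
  intro i hi
  by_cases h3 : i < n + 1
  · exact Or.inr (Or.inr h3)
  by_cases h4 : dist q η / 2 ≤ dist (x i) η
  · exact Or.inr (Or.inl ⟨hi, h4⟩)
  left
  have h5 := dist_triangle (x i) η q
  have h6 := dist_triangle q (x i) η
  rw [dist_comm η q] at h5
  rw [dist_comm q (x i)] at h6
  refine mem_biUnion (x := lev x q i) ⟨?_, ?_⟩ rfl
  · exact le_lev (not_lt.1 h3) (by linarith)
  · by_contra h7
    have h8 := dist_lt_of_le_lev (Nat.succ_pos L) (not_le.1 h7).le
    have h9 : (1 : ℝ) / (((L + 1 : ℕ) : ℝ) + 1) ≤ 1 / ((L : ℝ) + 1) :=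
      Nat.one_div_le_one_div (Nat.le_succ L)
    linarith

end Pool.Agent.H729Z.Pi04
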