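import Mathlib
import Pool.Agent.H729Z.Pi04.Realize

/-!
# The sets of limit points of a Pi-0-4 ideal are F-sigma
-/

set_option autoImplicit false

namespace Pool.Agent.H729Z.Pi04

open Set Filter Topology Metric

/-- states of the builder of a positive set -/
structure GState {X P : Type*} [MetricSpace X] [MetricSpace P] (Λ : Set X) (π : P → X)
    (S : P → ℕ → Bool) where
  p : P
  ε : ℝ
  b : ℕ
  u : ℕ → Bool
  q : X
  A : Set ℕ
  F : Set ℕ
  hε : 0 < ε
  hq1 : q ∉ Λ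
  hq2 : q ∈ closure (π '' ball p ε)
  hA : ∀ p' ∈ ball p ε, ∀ i, b ≤ i → S p' i = true → i ∈ A
  hF1 : F.Finite
  hF2 : F ⊆ A

theorem pi04_presentation {I : Set (Set ℕ)} (hP : IsPi04 (toCantor I)) :
    ∃ U : ℕ → ℕ → ℕ → Set (Set ℕ),
      (∀ k m n, ∀ Y ∈ U k m n, ∃ N : ℕ, ∀ Y' : Set ℕ, (∀ i < N, (i ∈ Y' ↔ i ∈ Y)) →
        Y' ∈ U k m n) ∧
      ∀ Y, Y ∈ I ↔ ∀ k, ∃ m, ∀ n, Y ∈ U k m n := by
  classical
  obtain ⟨G, hG, hGI⟩ := hP
  choose V hV hV' using fun k m => isGδ_iff_eq_iInter_nat.1 (hG k m)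
  refine ⟨fun k m n => {Y | (fun i => decide (i ∈ Y)) ∈ V k m n}, ?_, ?_⟩
  · intro k m n Y hY
    obtain ⟨N, hN⟩ := exists_cyl (hV k m n) hY
    exact ⟨N, fun Y' h => hN _ fun i hi => by simp [h i hi]⟩
  · intro Y
    have h1 : Y ∈ I ↔ (fun i => decide (i ∈ Y)) ∈ toCantor I := by simp [toCantor]
    rw [h1, hGI]
    simp only [mem_iInter, mem_iUnion, mem_ofPred_eq]
    refine forall_congr' fun k => exists_congr fun m => ?_
    rw [hV' k m, mem_iInter]

theorem exists_prod_nbhd {P : Type*} [MetricSpace P] {O : Set (P × (ℕ → Bool))} (hO : IsOpen O)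
    {p : P} {y : ℕ → Bool} (h : (p, y) ∈ O) :
    ∃ (V : Set P) (N : ℕ), IsOpen V ∧ p ∈ V ∧
      ∀ p' ∈ V, ∀ y' : ℕ → Bool, (∀ i < N, y' i = y i) → (p', y') ∈ O := by
  obtain ⟨V, W, hV, hW, hpV, hyW, hVW⟩ := isOpen_prod_iff.1 hO p y h
  obtain ⟨N, hN⟩ := exists_cyl hW hyW
  exact ⟨V, N, hV, hpV, fun p' hp' y' hy' => hVW ⟨hp', hN y' hy'⟩⟩

theorem game_false {X P : Type*} [MetricSpace X] [MetricSpace P] [CompleteSpace P] [Nonempty P]
    {I : Set (Set ℕ)} (hI : IsIdeal I) (hP : IsPi04 (toCantor I)) (x : ℕ → X)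
    (π : P → X) (hπ : Continuous π) (S : P → ℕ → Bool) (hS : Continuous S)
    (μ : P → ℕ → ℕ) (hμ : Continuous μ) (hSI : ∀ p, {i | S p i = true} ∉ I)
    (hmod : ∀ p k i, μ p k ≤ i → S p i = true → dist (x i) (π p) ≤ 1 / ((k : ℝ) + 1))
    (hq : ∀ V : Set P, IsOpen V → V.Nonempty → ∃ q, q ∉ limitPoints I x ∧ q ∈ closure (π '' V)) :
    False := by
  classical
  obtain ⟨U, hU, hIU⟩ := pi04_presentation hP
  let f : P × (ℕ → Bool) → (ℕ → Bool) := fun z i => S z.1 i && z.2 i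
  have hf : Continuous f := by
    refine continuous_pi fun i => ?_
    have h1 : Continuous fun z : P × (ℕ → Bool) => (S z.1 i, z.2 i) :=
      (((continuous_apply i).comp hS).comp continuous_fst).prodMk
        ((continuous_apply i).comp continuous_snd)
    exact (continuous_of_discreteTopology (f := fun b : Bool × Bool => b.1 && b.2)).comp h1
  have hmem : ∀ z, z ∈ f ⁻¹' toCantor I ↔ {i | i ∈ {i | S z.1 i = true} ∧ z.2 i = true} ∈ I := by
    intro z
    simp [f, toCantor]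
  have hres := flip_residual (hP.baire_preimage hf)
    (fun k => (Homeomorph.refl P).prodCongr (flipHomeo k))
    (fun z => (tendsto_const_nhds (x := z.1)).prodMk_nhds (tendsto_flipAt z.2)) (by
      intro k z hz
      rw [hmem] at hz ⊢
      exact not_both hI (hSI z.1) k z.2 hz)
  obtain ⟨O, hOo, hOd, hO⟩ := exists_dense_open_seq hres
  obtain ⟨p0⟩ := ‹Nonempty P›
  obtain ⟨q0, hq01, hq02⟩ := hq (ball p0 1) isOpen_ball ⟨p0, mem_ball_self one_pos⟩
  let s0 : GState (limitPoints I x) π S :=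
    ⟨p0, 1, 0, fun _ => false, q0, univ, ∅, one_pos, hq01, hq02, fun _ _ _ _ _ => mem_univ _,
      finite_empty, empty_subset _⟩
  let step : ℕ → GState (limitPoints I x) π S → GState (limitPoints I x) π S → Prop :=
    fun k s s' => closedBall s'.p s'.ε ⊆ ball s.p s.ε ∧ s'.ε ≤ 1 / ((k : ℝ) + 1) ∧ s.b < s'.b ∧
      (∀ i < s.b, s'.u i = s.u i) ∧
      (∀ p'' ∈ ball s'.p s'.ε, ∀ Y : ℕ → Bool, (∀ i < s'.b, Y i = s'.u i) → (p'', Y) ∈ O k) ∧
      (∀ p'' ∈ ball s'.p s'.ε, ∀ i, s.b ≤ i → i < s'.b → S p'' i = true → s'.u i = true →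
        i ∈ s'.F)
  refine diag hI U hU hIU s0 (fun s => lev x s.q) (fun s => s.F) (fun s => s.A) step
    (fun s => good_lev s.hq1) (fun s i => lev_le x s.q i) ?_ (fun s => ⟨s.hF1, s.hF2⟩) ?_
  · intro k s n
    have hδ : (0 : ℝ) < 1 / ((n : ℝ) + 1) / 2 := half_pos Nat.one_div_pos_of_nat
    have hκ : (1 : ℝ) / (((2 * n + 1 : ℕ) : ℝ) + 1) = 1 / ((n : ℝ) + 1) / 2 := by
      push_cast
      field_simp
      ring
    obtain ⟨_, ⟨p1, hp1, rfl⟩, hp1q⟩ := Metric.mem_closure_iff.1 s.hq2 _ hδ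
    set V1 : Set P := ball s.p s.ε ∩ ({p' | dist s.q (π p') < 1 / ((n : ℝ) + 1) / 2} ∩
      {p' | μ p' (2 * n + 1) = μ p1 (2 * n + 1)}) with hV1
    have hV1o : IsOpen V1 := by
      refine isOpen_ball.inter (IsOpen.inter ?_ ?_)
      · exact isOpen_lt (continuous_const.dist hπ) continuous_const
      · exact (isOpen_discrete {μ p1 (2 * n + 1)}).preimage
          ((continuous_apply (2 * n + 1)).comp hμ)
    have hp1V : p1 ∈ V1 := ⟨hp1, hp1q, rfl⟩
    set a : ℕ := max s.b (max (μ p1 (2 * n + 1)) n) with ha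
    set u1 : ℕ → Bool := fun i => if i < s.b then s.u i else false with hu1
    have hopen : IsOpen (V1 ×ˢ PiNat.cylinder u1 a) :=
      hV1o.prod (PiNat.isOpen_cylinder (fun _ : ℕ => Bool) _ _)
    obtain ⟨⟨p2, Y2⟩, ⟨hp2, hY2⟩, hz⟩ := (hOd k).inter_open_nonempty _ hopen
      ⟨(p1, u1), hp1V, PiNat.self_mem_cylinder _ _⟩
    simp only at hp2 hY2
    rw [PiNat.mem_cylinder_iff] at hY2
    obtain ⟨V2, N, hV2o, hp2V, hV2⟩ := exists_prod_nbhd (hOo k) hz
    set b' : ℕ := max N (a + 1) with hb'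
    have hV3o : IsOpen (S ⁻¹' PiNat.cylinder (S p2) b') :=
      (PiNat.isOpen_cylinder (fun _ : ℕ => Bool) _ _).preimage hS
    obtain ⟨ε1, hε1, hball⟩ := Metric.nhds_basis_closedBall.mem_iff.1
      (((hV1o.inter hV2o).inter hV3o).mem_nhds
        (show p2 ∈ (V1 ∩ V2) ∩ S ⁻¹' PiNat.cylinder (S p2) b' from
          ⟨⟨hp2, hp2V⟩, PiNat.self_mem_cylinder _ _⟩))
    set ε' : ℝ := min ε1 (1 / ((k : ℝ) + 1)) with hε'
    have hε'pos : 0 < ε' := lt_min hε1 Nat.one_div_pos_of_nat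
    have hball' : closedBall p2 ε' ⊆ (V1 ∩ V2) ∩ S ⁻¹' PiNat.cylinder (S p2) b' :=
      (closedBall_subset_closedBall (min_le_left _ _)).trans hball
    obtain ⟨q', hq'1, hq'2⟩ := hq (ball p2 ε') isOpen_ball ⟨p2, mem_ball_self hε'pos⟩
    have hclose : ∀ p' ∈ V1, ∀ i, a ≤ i → S p' i = true →
        i ∈ s.A ∩ {i | n ≤ lev x s.q i} := by
      intro p' hp' i hi hSi
      refine ⟨s.hA p' hp'.1 i (by omega) hSi, le_lev (by omega) ?_⟩
      have h1 := hmod p' (2 * n + 1) i (by rw [hp'.2.2]; omega) hSi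
      have h2 : dist s.q (π p') < 1 / ((n : ℝ) + 1) / 2 := hp'.2.1
      have h3 := dist_triangle (x i) (π p') s.q
      rw [dist_comm (π p') s.q] at h3
      rw [hκ] at h1
      linarith
    refine ⟨⟨p2, ε', b', Y2, q', s.A ∩ {i | n ≤ lev x s.q i},
      {i | s.b ≤ i ∧ i < b' ∧ S p2 i = true ∧ Y2 i = true}, hε'pos, hq'1, hq'2, ?_, ?_, ?_⟩,
      ⟨?_, min_le_right _ _, ?_, ?_, ?_, ?_⟩, subset_rfl⟩
    · intro p' hp' i hi hSi
      exact hclose p' (hball' (ball_subset_closedBall hp')).1.1 i (by omega) hSi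
    · exact (Set.finite_lt_nat b').subset fun i hi => hi.2.1
    · rintro i ⟨h1, h2, h3, h4⟩
      refine hclose p2 hp2 i ?_ h3
      by_contra h5
      have h6 := hY2 i (not_le.1 h5)
      rw [h4] at h6
      simp [hu1, not_lt.2 h1] at h6
    · exact fun p' hp' => (hball' hp').1.1.1
    · show s.b < b'
      omega
    · intro i hi
      show Y2 i = s.u i
      rw [hY2 i (by omega)]
      simp [hu1, hi]
    · intro p'' hp'' Y hY
      exact hV2 p'' (hball' (ball_subset_closedBall hp'')).1.2 Y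
        (fun i hi => hY i (show i < b' by omega))
    · intro p'' hp'' i h1 h2 h3 h4
      have h5 := (hball' (ball_subset_closedBall hp'')).2
      rw [mem_preimage, PiNat.mem_cylinder_iff] at h5
      exact ⟨h1, h2, by rw [← h5 i h2]; exact h3, h4⟩
  · intro seq h0 hstep hmemI
    have hanti : Antitone fun k => closedBall (seq k).p (seq k).ε :=
      antitone_nat_of_succ_le fun k => (hstep k).1.trans ball_subset_closedBall
    have hcauchy : CauchySeq fun k => (seq k).p := by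
      rw [Metric.cauchySeq_iff']
      intro ε hε
      obtain ⟨L, hL⟩ := exists_nat_one_div_lt hε
      refine ⟨L + 1, fun n hn => ?_⟩
      have h1 : (seq n).p ∈ closedBall (seq (L + 1)).p (seq (L + 1)).ε :=
        hanti hn (mem_closedBall_self (seq n).hε.le)
      exact lt_of_le_of_lt (le_trans h1 (hstep L).2.1) hL
    obtain ⟨p, hp⟩ := cauchySeq_tendsto_of_complete hcauchy
    have hpc : ∀ k, p ∈ closedBall (seq k).p (seq k).ε := by
      intro k
      refine isClosed_closedBall.mem_of_tendsto hp ?_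
      filter_upwards [eventually_ge_atTop k] with n hn
      exact hanti hn (mem_closedBall_self (seq n).hε.le)
    have hpb : ∀ k, p ∈ ball (seq k).p (seq k).ε := fun k => (hstep k).1 (hpc (k + 1))
    have hbm : StrictMono fun k => (seq k).b :=
      strictMono_nat_of_lt_succ fun k => (hstep k).2.2.1
    have hu : ∀ k d i, i < (seq k).b → (seq (k + d)).u i = (seq k).u i := by
      intro k d i hi
      induction d with
      | zero => rfl
      | succ d ih =>
        rw [← ih]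
        exact (hstep (k + d)).2.2.2.1 i (lt_of_lt_of_le hi (hbm.monotone (Nat.le_add_right k d)))
    let Y : ℕ → Bool := fun i => (seq (i + 1)).u i
    have hY : ∀ k i, i < (seq k).b → Y i = (seq k).u i := by
      intro k i hi
      have h1 : i < (seq (i + 1)).b := lt_of_lt_of_le (Nat.lt_succ_self i) (hbm.id_le (i + 1))
      have h2 := hu k (i + 1) i hi
      have h3 := hu (i + 1) k i h1
      rw [add_comm (i + 1) k] at h3
      show (seq (i + 1)).u i = _
      rw [← h3, h2]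
    have h1 := hO (p, Y) fun k => (hstep k).2.2.2.2.1 p (hpb (k + 1)) Y (hY (k + 1))
    rw [mem_compl_iff, hmem] at h1
    apply h1
    refine hI.subset_mem _ _ ?_ hmemI
    rintro i ⟨hi1, hi2⟩
    have hex : ∃ k, i < (seq (k + 1)).b :=
      ⟨i, lt_of_lt_of_le (Nat.lt_succ_self i) (hbm.id_le (i + 1))⟩
    have h2 := Nat.find_spec hex
    have h3 : (seq (Nat.find hex)).b ≤ i := by
      rcases h4 : Nat.find hex with _ | j
      · rw [h0]
        exact Nat.zero_le i
      · have h5 := Nat.find_min hex (m := j) (by omega)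
        exact not_lt.1 h5
    refine mem_iUnion.2 ⟨Nat.find hex, (hstep _).2.2.2.2.2 p (hpb _) i h3 h2 hi1 ?_⟩
    rw [← hY _ i h2]
    exact hi2

end Pool.Agent.H729Z.Pi04
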