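import Mathlib
import Pool.Agent.H729Z.Pi04.Game

/-!
# The dichotomy for Pi-0-4 ideals
-/

set_option autoImplicit false

namespace Pool.Agent.H729Z.Pi04

open Set Filter Topology Metric MeasureTheory

theorem IsPi04.measurable_preimage {α Z : Type*} [TopologicalSpace α] [TopologicalSpace Z]
    [MeasurableSpace Z] [BorelSpace Z]
    {s : Set α} (hs : IsPi04 s) {f : Z → α} (hf : Continuous f) :
    MeasurableSet (f ⁻¹' s) := by
  obtain ⟨G, hG, rfl⟩ := hs
  simp only [preimage_iInter, preimage_iUnion]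
  refine MeasurableSet.iInter fun k => MeasurableSet.iUnion fun m => ?_
  obtain ⟨U, hU, hU'⟩ := isGδ_iff_eq_iInter_nat.1 (hG k m)
  rw [hU', preimage_iInter]
  exact MeasurableSet.iInter fun n => ((hU n).preimage hf).measurableSet

/-- sets covered by countably many closed subsets of `Λ` -/
def Small {X : Type*} [TopologicalSpace X] (Λ A : Set X) : Prop :=
  ∃ C : ℕ → Set X, (∀ n, IsClosed (C n) ∧ C n ⊆ Λ) ∧ A ⊆ ⋃ n, C n

theorem Small.mono {X : Type*} [TopologicalSpace X] {Λ A B : Set X} (h : Small Λ B)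
    (hAB : A ⊆ B) : Small Λ A := by
  obtain ⟨C, hC, hB⟩ := h
  exact ⟨C, hC, hAB.trans hB⟩

theorem small_iUnion {X : Type*} [TopologicalSpace X] {Λ : Set X} {A : ℕ → Set X}
    (h : ∀ n, Small Λ (A n)) : Small Λ (⋃ n, A n) := by
  choose C hC hA using h
  refine ⟨fun n => C (Nat.unpair n).1 (Nat.unpair n).2, fun n => hC _ _, ?_⟩
  intro z hz
  obtain ⟨n, hn⟩ := mem_iUnion.1 hz
  obtain ⟨m, hm⟩ := mem_iUnion.1 (hA n hn)
  exact mem_iUnion.2 ⟨Nat.pair n m, by simpa using hm⟩

theorem small_empty {X : Type*} [TopologicalSpace X] {Λ : Set X} : Small Λ ∅ :=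
  ⟨fun _ => ∅, fun _ => ⟨isClosed_empty, empty_subset _⟩, empty_subset _⟩

theorem Small.union {X : Type*} [TopologicalSpace X] {Λ A B : Set X} (hA : Small Λ A)
    (hB : Small Λ B) : Small Λ (A ∪ B) := by
  refine (small_iUnion (A := fun n => if n = 0 then A else B) fun n => ?_).mono ?_
  · split_ifs
    · exact hA
    · exact hB
  · rintro z (hz | hz)
    · exact mem_iUnion.2 ⟨0, by simpa using hz⟩
    · exact mem_iUnion.2 ⟨1, by simpa using hz⟩

theorem fsigma_limitPoints_metric {X : Type*} [MetricSpace X] [CompleteSpace X]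
    [SecondCountableTopology X] {I : Set (Set ℕ)} (hI : IsIdeal I) (hP : IsPi04 (toCantor I))
    (x : ℕ → X) : IsFsigma (limitPoints I x) := by
  classical
  by_contra hcon
  have hns : ¬ Small (limitPoints I x) (limitPoints I x) := by
    rintro ⟨C, hC, hsub⟩
    exact hcon ⟨C, fun n => (hC n).1,
      Subset.antisymm hsub (iUnion_subset fun n => (hC n).2)⟩
  let Z := X × (ℕ → Bool) × (ℕ → ℕ)
  let R : Set Z := ((fun z : Z => z.2.1) ⁻¹' toCantor I)ᶜ ∩
    ⋂ k : ℕ, ⋂ i : ℕ, {z : Z | z.2.2 k ≤ i → z.2.1 i = true → dist (x i) z.1 ≤ 1 / ((k : ℝ) + 1)}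
  have hRa : AnalyticSet R := by
    let : MeasurableSpace Z := borel Z
    have : BorelSpace Z := ⟨rfl⟩
    have i1 : PolishSpace X := inferInstance
    have i2 : PolishSpace (ℕ → Bool) := PolishSpace.mk
    have i3 : PolishSpace (ℕ → ℕ) := PolishSpace.mk
    have i4 : PolishSpace ((ℕ → Bool) × (ℕ → ℕ)) := PolishSpace.mk
    have i5 : PolishSpace Z := inferInstanceAs (PolishSpace (X × (ℕ → Bool) × (ℕ → ℕ)))
    refine MeasurableSet.analyticSet ?_
    refine (hP.measurable_preimage (continuous_fst.comp continuous_snd)).compl.inter ?_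
    refine MeasurableSet.iInter fun k => MeasurableSet.iInter fun i => ?_
    have hc : Continuous fun z : Z => z.2.2 k :=
      (continuous_apply k).comp (continuous_snd.comp continuous_snd)
    have h1 : MeasurableSet {z : Z | z.2.2 k ≤ i} :=
      ((isOpen_discrete {n : ℕ | n ≤ i}).preimage hc).measurableSet
    have hc2 : Continuous fun z : Z => z.2.1 i :=
      (continuous_apply i).comp (continuous_fst.comp continuous_snd)
    have h2 : MeasurableSet {z : Z | z.2.1 i = true} :=
      ((isOpen_discrete {true}).preimage hc2).measurableSet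
    have h3 : MeasurableSet {z : Z | dist (x i) z.1 ≤ 1 / ((k : ℝ) + 1)} :=
      (isClosed_le (continuous_const.dist continuous_fst) continuous_const).measurableSet
    exact h1.imp (h2.imp h3)
  have hR1 : ∀ z ∈ R, z.1 ∈ limitPoints I x := by
    rintro z ⟨hz1, hz2⟩
    refine ⟨{i | z.2.1 i = true}, hz1, tendsto_iff_finite.2 fun ε hε => ?_⟩
    obtain ⟨L, hL⟩ := exists_nat_one_div_lt hε
    refine (Set.finite_lt_nat (z.2.2 L)).subset ?_
    rintro i ⟨hi1, hi2⟩
    by_contra h3
    have h4 := mem_iInter.1 (mem_iInter.1 hz2 L) i (not_lt.1 h3) hi1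
    linarith
  have hR2 : ∀ η ∈ limitPoints I x, ∃ z ∈ R, z.1 = η := by
    rintro η ⟨S, hS, hS2⟩
    have hex : ∀ k : ℕ, ∃ B : ℕ, ∀ i, B ≤ i → i ∈ S → dist (x i) η ≤ 1 / ((k : ℝ) + 1) := by
      intro k
      obtain ⟨B, hB⟩ := (tendsto_iff_finite.1 hS2 _ (Nat.one_div_pos_of_nat (n := k))).bddAbove
      refine ⟨B + 1, fun i hi hiS => ?_⟩
      by_contra h1
      have := hB ⟨hiS, (not_le.1 h1).le⟩
      omega
    choose μ hμ using hex
    refine ⟨(η, fun i => decide (i ∈ S), μ), ⟨?_, ?_⟩, rfl⟩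
    · simpa [toCantor] using hS
    · refine mem_iInter.2 fun k => mem_iInter.2 fun i => ?_
      intro h1 h2
      exact hμ k i h1 (by simpa using h2)
  rw [AnalyticSet] at hRa
  rcases hRa with hRe | ⟨f, hf, hfR⟩
  · apply hns
    refine small_empty.mono fun η hη => ?_
    obtain ⟨z, hz, -⟩ := hR2 η hη
    rw [hRe] at hz
    exact hz
  let π : (ℕ → ℕ) → X := fun p => (f p).1
  have hπ : Continuous π := continuous_fst.comp hf
  have hfmem : ∀ p, f p ∈ R := fun p => hfR ▸ mem_range_self p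
  let Bad : Set (ℕ → ℕ) := {p | ∃ V, IsOpen V ∧ p ∈ V ∧ Small (limitPoints I x) (π '' V)}
  have hBo : IsOpen Bad := by
    rw [isOpen_iff_mem_nhds]
    rintro p ⟨V, hV, hpV, hs⟩
    exact mem_of_superset (hV.mem_nhds hpV) fun p' hp' => ⟨V, hV, hp', hs⟩
  have hBs : Small (limitPoints I x) (π '' Bad) := by
    refine (HereditarilyLindelofSpace.isLindelof Bad).induction_on
      (p := fun t => Small (limitPoints I x) (π '' t)) ?_ ?_ ?_
    · intro s t hst ht
      exact ht.mono (image_mono hst)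
    · intro S hSc hS
      rcases S.eq_empty_or_nonempty with rfl | hne
      · simpa using small_empty
      · obtain ⟨g, rfl⟩ := hSc.exists_eq_range hne
        rw [sUnion_range, image_iUnion]
        exact small_iUnion fun n => hS _ (mem_range_self n)
    · rintro p ⟨V, hV, hpV, hs⟩
      exact ⟨V, mem_nhdsWithin_of_mem_nhds (hV.mem_nhds hpV), hs⟩
  have hne : (Badᶜ).Nonempty := by
    by_contra h1
    apply hns
    refine hBs.mono fun η hη => ?_
    obtain ⟨z, hz, rfl⟩ := hR2 η hη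
    rw [← hfR] at hz
    obtain ⟨p, rfl⟩ := hz
    refine ⟨p, ?_, rfl⟩
    by_contra h2
    exact h1 ⟨p, h2⟩
  have : PolishSpace (Badᶜ : Set (ℕ → ℕ)) := hBo.isClosed_compl.polishSpace
  have : Nonempty (Badᶜ : Set (ℕ → ℕ)) := hne.to_subtype
  let := TopologicalSpace.upgradeIsCompletelyMetrizable (Badᶜ : Set (ℕ → ℕ))
  refine game_false (P := (Badᶜ : Set (ℕ → ℕ))) hI hP x (fun p => π p)
    (hπ.comp continuous_subtype_val) (fun p => (f p).2.1)
    (continuous_fst.comp (continuous_snd.comp (hf.comp continuous_subtype_val)))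
    (fun p => (f p).2.2)
    (continuous_snd.comp (continuous_snd.comp (hf.comp continuous_subtype_val)))
    (fun p => (hfmem p).1)
    (fun p k i h1 h2 => mem_iInter.1 (mem_iInter.1 (hfmem p).2 k) i h1 h2) ?_
  rintro V hV ⟨p, hp⟩
  by_contra h1
  push Not at h1
  obtain ⟨V', hV', rfl⟩ := isOpen_induced_iff.1 hV
  apply p.2
  refine ⟨V', hV', hp, ?_⟩
  have h2 : Small (limitPoints I x)
      ((fun p : (Badᶜ : Set (ℕ → ℕ)) => π p) '' (Subtype.val ⁻¹' V')) := by
    refine ⟨fun _ => closure ((fun p : (Badᶜ : Set (ℕ → ℕ)) => π p) '' (Subtype.val ⁻¹' V')),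
      fun _ => ⟨isClosed_closure, fun q hq => ?_⟩, ?_⟩
    · by_contra h3
      exact h1 q h3 hq
    · exact fun z hz => mem_iUnion.2 ⟨0, subset_closure hz⟩
  refine (h2.union hBs).mono ?_
  rintro _ ⟨p', hp', rfl⟩
  by_cases h3 : p' ∈ Bad
  · exact Or.inr ⟨p', h3, rfl⟩
  · exact Or.inl ⟨⟨p', h3⟩, hp', rfl⟩

theorem dichotomy (X : Type*) [TopologicalSpace X] [PolishSpace X] (I : Set (Set ℕ))
    (hI : IsIdeal I) (hP : IsPi04 (toCantor I)) :
    limitFamily X I = {A : Set X | IsClosed A} ∨ limitFamily X I = {A : Set X | IsFsigma A} := by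
  let := TopologicalSpace.upgradeIsCompletelyMetrizable X
  by_cases h : ∀ x : ℕ → X, IsClosed (limitPoints I x)
  · left
    refine Subset.antisymm ?_ fun C hC => closed_mem_limitFamily hI hP hC
    rintro A (⟨x, rfl⟩ | rfl)
    · exact h x
    · exact isClosed_empty
  · right
    push Not at h
    obtain ⟨x, hx⟩ := h
    have h1 : ∃ q, q ∉ limitPoints I x ∧ q ∈ closure (limitPoints I x) := by
      by_contra h2
      push Not at h2
      apply hx
      rw [← closure_subset_iff_isClosed]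
      intro q hq
      by_contra h3
      exact h2 q h3 hq
    obtain ⟨q, hq1, hq2⟩ := h1
    refine Subset.antisymm ?_ fun A hA =>
      fsigma_mem_limitFamily hI hP (good_lev hq1) (infinite_levels hI hq1 hq2) hA
    rintro A (⟨y, rfl⟩ | rfl)
    · exact fsigma_limitPoints_metric hI hP y
    · exact ⟨fun _ => ∅, fun _ => isClosed_empty, by simp⟩

end Pool.Agent.H729Z.Pi04
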